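import Pool.Agent.helper60.XP.SpecE

set_option autoImplicit false

open Complex Metric Set Filter Topology MeasureTheory

noncomputable section

open V3 (En ZL)

namespace XPE

theorem VB1 (hPCO : V3.PCO_stmt) : VB1_stmt := by
  intro P A g B v q θ hL hq
  obtain ⟨s, hs, hsep⟩ := hL.sep
  obtain ⟨hcl, -, hpc⟩ := hPCO P s hs hsep
  have hop : IsOpen Pᶜ := hcl.isOpen_compl
  have hdB : ∀ x ∈ Pᶜ, DifferentiableAt ℂ B x := fun x hx =>
    hL.Bd.differentiableAt (hop.mem_nhds hx)
  have hdiff : DifferentiableOn ℂ (fun x => v x ^ 2 * B x) Pᶜ := by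
    intro x hx
    exact (((hL.vd x).pow 2).mul (hdB x hx)).differentiableWithinAt
  have hderiv : Pᶜ.EqOn (deriv (fun x => v x ^ 2 * B x)) 0 := by
    intro x hx
    have h1 : HasDerivAt v (deriv v x) x := (hL.vd x).hasDerivAt
    have h2 : HasDerivAt B (deriv B x) x := (hdB x hx).hasDerivAt
    have h3 := (h1.pow 2).mul h2
    have h4 : deriv (fun x => v x ^ 2 * B x) x =
        ((2 : ℕ) : ℂ) * v x ^ (2 - 1) * deriv v x * B x + v x ^ 2 * deriv B x := h3.deriv
    rw [h4, Pi.zero_apply]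
    have h5 := hL.qB x hx
    rw [hq x] at h5
    have h6 : ((2 : ℕ) : ℂ) * v x ^ (2 - 1) * deriv v x * B x + v x ^ 2 * deriv B x =
        v x * (v x * deriv B x + 2 * deriv v x * B x) := by
      push_cast
      simp only [pow_one]
      ring
    rw [h6, ← h5, mul_zero]
  obtain ⟨c, hc⟩ := hop.exists_is_const_of_deriv_eq_zero hpc hdiff hderiv
  -- limit at 0
  have hc1 : c = 1 := by
    obtain ⟨h, hh, hBh⟩ := hL.Bp 0 hL.zero
    have hv0 := hL.v0 0 hL.zero
    have hvd : HasDerivAt v 1 0 := by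
      have := (hL.vd 0).hasDerivAt
      rwa [hv0.2] at this
    have hslope : Tendsto (fun x : ℂ => v x / x) (𝓝[≠] 0) (𝓝 1) := by
      have h1 := hvd.tendsto_slope
      refine h1.congr' ?_
      filter_upwards [self_mem_nhdsWithin] with x hx
      rw [slope_def_field, hv0.1]
      simp
    have hB2 : Tendsto (fun x : ℂ => x ^ 2 * B x) (𝓝[≠] 0) (𝓝 1) := by
      have h1 : Tendsto (fun x : ℂ => 1 + g 0 * x + x ^ 2 * h x) (𝓝[≠] 0) (𝓝 (1 + g 0 * 0 + 0 ^ 2 * h 0)) := by
        have hcont : ContinuousAt (fun x : ℂ => 1 + g 0 * x + x ^ 2 * h x) 0 := by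
          have := hh.continuousAt
          fun_prop
        exact hcont.tendsto.mono_left nhdsWithin_le_nhds
      have h2 : (1 : ℂ) + g 0 * 0 + 0 ^ 2 * h 0 = 1 := by ring
      rw [h2] at h1
      refine h1.congr' ?_
      filter_upwards [hBh, self_mem_nhdsWithin] with x hx hne
      have hne' : x ≠ 0 := hne
      rw [hx, sub_zero]
      field_simp
    have hprod : Tendsto (fun x : ℂ => (v x / x) ^ 2 * (x ^ 2 * B x)) (𝓝[≠] 0) (𝓝 (1 ^ 2 * 1)) :=
      (hslope.pow 2).mul hB2
    have hconst : Tendsto (fun x : ℂ => (v x / x) ^ 2 * (x ^ 2 * B x)) (𝓝[≠] 0) (𝓝 c) := by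
      refine tendsto_const_nhds.congr' ?_
      have hPn : ∀ᶠ x in 𝓝[≠] (0 : ℂ), x ∈ Pᶜ := by
        rw [eventually_nhdsWithin_iff]
        filter_upwards [Metric.ball_mem_nhds (0 : ℂ) hs] with x hx hne hxP
        have := hsep x hxP 0 hL.zero hne
        rw [sub_zero] at this
        rw [mem_ball_zero_iff] at hx
        exact absurd hx (not_lt.mpr this)
      filter_upwards [hPn, self_mem_nhdsWithin] with x hx hne
      have hne' : x ≠ 0 := hne
      have := hc x hx
      rw [← this]
      field_simp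
    have := tendsto_nhds_unique hconst hprod
    simpa using this
  intro x hx
  have := hc x hx
  rw [hc1] at this
  exact this

end XPE
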