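import Pool.Agent.helper60.XP.SpecX

set_option autoImplicit false

open Complex Metric Set Filter Topology MeasureTheory
open V3S (UF)
open XP

noncomputable section

namespace XPX

theorem XCB_good (n : ℕ) (C A : ℝ) (D : Dat) (s : ℝ) (N : ℕ) (om de : ℝ) (h : D.Good n C A) :
    (D.par s N om de).Good n C A where
  hn := h.hn
  hdeg := h.hdeg
  hk := h.hk
  cyc := h.cyc
  ex := h.ex
  rho1 := h.rho1
  rho2 := h.rho2
  C1 := h.C1
  A1 := h.A1
  Rpos := h.Rpos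
  mini := h.mini
  inj := h.inj
  sepr := h.sepr
  trans := h.trans
  hg := h.hg
  eng := h.eng
  rdiff := h.rdiff
  bP := h.bP
  invi := h.invi

theorem XCB_seq (n : ℕ) (C : ℝ) (D : ℕ → Dat) (s : ℕ → ℝ) (N : ℕ → ℕ) (om de : ℕ → ℝ)
    (h : Seq n C D) : Seq n C (fun m => (D m).par (s m) (N m) (om m) (de m)) where
  good := by
    obtain ⟨A, hA, hg⟩ := h.good
    exact ⟨A, hA, fun m => XCB_good n C (A m) (D m) _ _ _ _ (hg m)⟩
  E0 := h.E0

theorem XCB_seqB (η : ℝ) (ζ : ℂ) (D : ℕ → Dat) (s : ℕ → ℝ) (N : ℕ → ℕ) (om de : ℕ → ℝ)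
    (h : SeqB η ζ D) : SeqB η ζ (fun m => (D m).par (s m) (N m) (om m) (de m)) where
  gb := fun m => ⟨(h.gb m).near, (h.gb m).far⟩
  eta := h.eta
  zeta := h.zeta
  lim := h.lim

theorem XCB (hNRM : NRM_stmt) (hSTB : XPT.STB_stmt) (hBEN : XPL.BEN_stmt) : XCB_stmt := by
  intro n C η ζ D hC hS hB
  have key : ∃ s : ℕ → ℝ, (∀ m, 0 < s m ∧ s m ≤ 1) ∧ ∀ (N : ℕ → ℕ) (om de : ℕ → ℝ),
      LB (fun m => (D m).par (s m) (N m) (om m) (de m)) := by
    rcases hNRM n C D hS with h | h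
    · exact ⟨fun _ => 1, fun _ => ⟨one_pos, le_refl 1⟩, fun N om de => (h _ (fun _ => rfl)).1⟩
    · refine ⟨fun m => (nu (D m))⁻¹, fun m => ?_, fun N om de => (h _ (fun _ => rfl)).1⟩
      have h1 : 1 ≤ nu (D m) := by
        unfold nu
        have := norm_nonneg ((D m).Bb (1 / 2))
        have := norm_nonneg ((D m).Bb (-1 / 2))
        linarith
      exact ⟨inv_pos.mpr (by linarith), inv_le_one_of_one_le₀ h1⟩
  obtain ⟨s, hs, hLB⟩ := key
  obtain ⟨N, om, de, hPar, x₀, hx₀, hctl⟩ := hSTB n C η ζ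
    (fun m => (D m).par (s m) 1 1 1) hC (XCB_seq n C D s _ _ _ hS)
    (XCB_seqB η ζ D s _ _ _ hB) hs (hLB _ _ _)
  exact hBEN n C η ζ (fun m => (D m).par (s m) (N m) (om m) (de m))
    ⟨XCB_seq n C D s N om de hS, hPar, hLB N om de⟩ ⟨x₀, hx₀, hctl⟩
    (XCB_seqB η ζ D s N om de hB)

end XPX
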