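import Pool.Agent.helper74.XP.SpecP

set_option autoImplicit false

open Complex Metric Set Filter Topology MeasureTheory MPS PPS Pool.Agent.helper16.Multibrot

noncomputable section

namespace XPP

theorem XFG_Bd (f : Polynomial ℂ) (n : ℕ) (hn : 2 ≤ n) (hf : f.natDegree = n) :
    ∃ a : ℝ, 0 < a ∧ Bd n a f := by
  have hf0 : f ≠ 0 := by
    intro h
    rw [h, Polynomial.natDegree_zero] at hf
    omega
  have hlc : 0 < ‖f.leadingCoeff‖ := norm_pos_iff.2 (Polynomial.leadingCoeff_ne_zero.2 hf0)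
  refine ⟨∑ i ∈ Finset.range (n + 1), ‖f.coeff i‖ + 1 / ‖f.leadingCoeff‖, by positivity, hf, ?_, ?_⟩
  · intro i
    have h0 : (0 : ℝ) ≤ 1 / ‖f.leadingCoeff‖ := by positivity
    by_cases hi : i < n + 1
    · have := Finset.single_le_sum (f := fun i => ‖f.coeff i‖) (fun i _ => norm_nonneg _)
        (Finset.mem_range.2 hi)
      linarith
    · have : f.coeff i = 0 := Polynomial.coeff_eq_zero_of_natDegree_lt (by omega)
      rw [this, norm_zero]
      positivity
  · have h0 : (0 : ℝ) ≤ ∑ i ∈ Finset.range (n + 1), ‖f.coeff i‖ :=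
      Finset.sum_nonneg fun i _ => norm_nonneg _
    rw [add_mul, one_div, inv_mul_cancel₀ hlc.ne']
    have := mul_nonneg h0 hlc.le
    linarith

theorem XFG (hF : FIN_stmt) (hE : EXG_stmt) (hQ : V3W.THQ_stmt) : XFG_stmt := by
  intro n hn
  obtain ⟨ε, hε, hfin⟩ := hF n hn
  refine ⟨ε, hε, fun f hf ⟨K, hK⟩ => ?_⟩
  obtain ⟨a, ha, hBd⟩ := XFG_Bd f n hn hf
  obtain ⟨ε₂, hε₂, hthq⟩ := hQ n a (|K| + 1) hn ha (by positivity)
  have hLpos : ∀ O : CY f, 0 < O.L := fun O => Real.log_pos O.rep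
  refine hfin f (n - 1) (fun O m => lam f O.b O.g m) |K| ε₂ hf (by omega) hε₂ ?_ ?_
  · intro O hO hL
    have h1 := hK O hO
    have h2 : K * O.L ≤ |K| * O.L := mul_le_mul_of_nonneg_right (le_abs_self K) (hLpos O).le
    have h3 : |K| * O.L ≤ |K| := by
      have := mul_le_mul_of_nonneg_left hL (abs_nonneg K)
      linarith
    refine ⟨?_, ?_⟩
    · by_contra hlt
      have h4 := hthq O.k f O.b O.g hBd O.cyc O.rep (not_le.1 hlt).le O.ex
      have h5 : (|K| + 1) * O.L ≤ |K| * O.L := h4.trans (h1.trans h2)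
      have := hLpos O
      nlinarith
    · intro m hm
      have h6 := Finset.single_le_sum (f := fun m => ‖lam f O.b O.g m‖) (fun m _ => norm_nonneg _)
        (Finset.mem_range.2 hm)
      linarith
  · intro O J C b hb
    exact hE n f O J C b hn hf hb

end XPP
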